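import Pool.Agent.H30.VR.Targets

/-!
# Board ver_modules (MP_d32443_co), row LKA: the system of paths
-/

set_option autoImplicit false

open Finset Pool.Agent.H48.CE Pool.Agent.H30.VR

namespace Pool.Agent.H86.VR

open scoped Classical in
/-- all but less than `t` vertices of `A` are typical -/
lemma typ_card {V : Type} (G : SimpleGraph V) (d : ℝ) (t : ℕ) (A B : Finset V)
    (hd1 : d ≤ 1) (h : LR G d t A B) (ht : 1 ≤ t) (hAB : A.card = B.card)
    (h20 : (20 * t : ℝ) ≤ d * A.card) :
    A.card ≤ (A.filter (fun v => d * B.card ≤ (nb G B v).card)).card + t ∧ 20 * t ≤ A.card := by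
  have h1 : (20 * t : ℝ) ≤ A.card := by
    have h2 : (0 : ℝ) ≤ A.card := Nat.cast_nonneg _
    nlinarith
  have h2 : 20 * t ≤ A.card := by exact_mod_cast h1
  refine ⟨?_, h2⟩
  have h3 := h.typ ht (Finset.Subset.refl B) (by omega)
  have h4 : (A.filter (fun a => ((nb G B a).card : ℝ) < d * B.card)) =
      A.filter (fun v => ¬ (d * (B.card : ℝ) ≤ (nb G B v).card)) := by
    apply Finset.filter_congr
    intro x _
    rw [not_le]
  rw [h4] at h3
  have h5 := Finset.card_filter_add_card_filter_not (s := A)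
    (fun v => d * (B.card : ℝ) ≤ (nb G B v).card)
  omega

theorem pf_LKA (hMNG : T_MNG) (hFEW : T_FEW) (hFHB : T_FHB) : T_LKA := by
  classical
  intro V _ G M r d A B t A₀ B₀ t₀ hCon hd hd1 hp hd0 hc0 h200 hLR0 h3 ht0 hdis hdis0
  have hinv : (1 : ℝ) ≤ 1 / d := by
    rw [le_div_iff₀ hd]
    linarith
  have hM0 : (0 : ℝ) ≤ M := Nat.cast_nonneg _
  have ht : ∀ i, 1 ≤ t i := by
    intro i
    have hM : (1 : ℝ) ≤ M := by
      exact_mod_cast (by have := i.2; omega : 1 ≤ M)
    have h := (hp i).2.2.2.2.2.2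
    have h1 : (0 : ℝ) < t i := by nlinarith
    exact_mod_cast h1
  have htc : ∀ i, (A i).card ≤ ((A i).filter
      (fun v => d * (B i).card ≤ (nb G (B i) v).card)).card + t i ∧ 20 * t i ≤ (A i).card :=
    fun i => typ_card G d (t i) (A i) (B i) hd1 (hp i).2.2.2.2.1 (ht i) (hp i).2.1 (hp i).2.2.1
  have hex : ∀ i, ∃ x ∈ (A i).filter (fun v => d * (B i).card ≤ (nb G (B i) v).card),
      ∃ y ∈ (A i).filter (fun v => d * (B i).card ≤ (nb G (B i) v).card), x ≠ y := by
    intro i
    apply Finset.one_lt_card.1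
    have h1 := htc i
    have h2 := ht i
    omega
  choose x hx y hy hxy using hex
  have ha : ∀ i e, (if e = true then y i else x i) ∈ A i ∧
      d * (B i).card ≤ (nb G (B i) (if e = true then y i else x i)).card := by
    intro i e
    have h1 := Finset.mem_filter.1 (hx i)
    have h2 := Finset.mem_filter.1 (hy i)
    cases e
    · exact h1
    · exact h2
  set a : Fin M × Bool → V := fun p => if p.2 = true then y p.1 else x p.1 with hadef
  have ha' : ∀ i e, a (i, e) ∈ A i ∧ d * (B i).card ≤ (nb G (B i) (a (i, e))).card :=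
    fun i e => ha i e
  have hinj : Function.Injective a := by
    rintro ⟨i, e⟩ ⟨j, f⟩ h
    by_cases hij : i = j
    · subst hij
      cases e <;> cases f
      · rfl
      · exact absurd h (hxy i)
      · exact absurd h.symm (hxy i)
      · rfl
    · exact absurd (h ▸ (ha' j f).1 : a (i, e) ∈ A j)
        (hdis i j hij _ (Or.inl (ha' i e).1)).1
  have hY := typ_card G d t₀ A₀ B₀ hd1 hLR0 ht0 hc0 h200
  set Y := A₀.filter (fun v => d * B₀.card ≤ (nb G B₀ v).card) with hYdef
  have hMt : 2 * M ≤ t₀ := by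
    have h1 : (2 * M : ℝ) ≤ t₀ := by nlinarith
    exact_mod_cast h1
  have hcard : Fintype.card (Fin M × Bool) = 2 * M := by
    simp [mul_comm]
  obtain ⟨Q0, hQ0⟩ := hMNG G (2 * M) a Y hCon (by rw [hcard]; omega) hinj (by rw [hcard]; omega)
  have hP : ∃ m, ∃ Q, PS G a Y Q ∧ tl Q = m := ⟨_, Q0, hQ0, rfl⟩
  obtain ⟨Q, hQ, hm⟩ := Nat.find_spec hP
  have hMPS : MPS G a Y Q := by
    refine ⟨hQ, fun Q' hQ' => ?_⟩
    rw [hm]
    exact Nat.find_min' hP ⟨Q', hQ', rfl⟩
  have hcardR : (Fintype.card (Fin M × Bool) : ℝ) = 2 * M := by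
    rw [hcard]
    push_cast
    ring
  refine ⟨a, Q, hinj, hQ, ha', ?_, ?_⟩
  · intro i
    obtain ⟨p1, p2, p3, p4, p5, p6, p7⟩ := hp i
    have h1 := hFEW G a Y Q (A i) (B i) d (t i) r hMPS p1 p5 hd hd1 p2
      (by have := htc i; omega) p4 (by rw [hcardR]; exact p6) (by rw [hcardR]; exact p7)
    exact ⟨by have := h1.1; omega, by have := h1.2; omega⟩
  · have h2 : (A₀.filter (fun v => v ∉ Y)).card ≤ t₀ := by
      have h5 := Finset.card_filter_add_card_filter_not (s := A₀) (fun v => v ∈ Y)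
      have h6 : A₀.filter (fun v => v ∈ Y) = Y := by
        ext v
        rw [Finset.mem_filter]
        constructor
        · exact fun h => h.2
        · exact fun h => ⟨(Finset.mem_filter.1 h).1, h⟩
      rw [h6] at h5
      omega
    have h1 := hFHB G a Y Q A₀ B₀ d t₀ hMPS hd0
      (fun p => (hdis0 p.1 _ (Or.inl (ha' p.1 p.2).1)).1) hLR0 hd ht0
      (Finset.filter_subset _ _) (by convert h2) (by rw [hcard]; omega)
    rw [hcard] at h1
    exact ⟨by have := h1.1; omega, by have := h1.2; omega⟩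

end Pool.Agent.H86.VR
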